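import Pool.Agent.Y318.Adm.Stm

set_option autoImplicit false

/-!
Task EX of project Y318-ADM (MP_5f3cbe_lc): existence of the majorants, from `S_TRIG`.
-/

open Metric Set Filter Topology

namespace Pool.Agent.Y359.Adm.Ex

open Pool.Agent.Y318.Adm

/-- growth of the characteristic of a non-admissible function -/
lemma growth (F : ℂ → ℂ) (hF : DifferentiableOn ℂ F (ball 0 1)) (hN : NonAdm F) :
    ∃ (K : ℕ) (A : ℝ), ∀ r : ℝ, 0 ≤ r → r < 1 → TT F r ≤ K * Real.log (1 - r)⁻¹ + A := by
  obtain ⟨C, hC0, hC⟩ := Asymptotics.IsBigO.exists_nonneg hN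
  rw [Asymptotics.isBigOWith_iff] at hC
  obtain ⟨l, hl, hl2⟩ := mem_nhdsLT_iff_exists_Ioo_subset.1 hC
  obtain ⟨K, hK⟩ := exists_nat_ge C
  have hl1 : l < 1 := hl
  set b : ℝ := (max l 0 + 1) / 2 with hb
  have hm1 : max l 0 < 1 := max_lt hl1 one_pos
  have hb1 : b < 1 := by rw [hb]; linarith
  have hlb : l < b := by
    have : l ≤ max l 0 := le_max_left _ _
    rw [hb]; linarith
  have hb0 : 0 < b := by
    have : 0 ≤ max l 0 := le_max_right _ _
    rw [hb]; linarith
  -- bound of F on the closed ball of radius b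
  have hcomp : IsCompact (closedBall (0 : ℂ) b) := isCompact_closedBall _ _
  have hsub : closedBall (0 : ℂ) b ⊆ ball 0 1 := closedBall_subset_ball hb1
  obtain ⟨M, hM⟩ := hcomp.exists_bound_of_continuousOn (hF.continuousOn.mono hsub)
  have hM0 : 0 ≤ M := (norm_nonneg _).trans (hM 0 (by simp [hb0.le]))
  refine ⟨K, Real.posLog M, fun r hr0 hr1 => ?_⟩
  have hlog : 0 ≤ Real.log (1 - r)⁻¹ := by
    apply Real.log_nonneg
    apply one_le_inv_iff₀.2
    constructor <;> linarith
  rcases lt_or_ge r b with hrb | hrb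
  · have h1 : ‖∫ θ in (0:ℝ)..(2 * Real.pi),
        Real.posLog ‖F ((r : ℂ) * Complex.exp ((θ : ℂ) * Complex.I))‖‖ ≤
        Real.posLog M * |2 * Real.pi - 0| := by
      apply intervalIntegral.norm_integral_le_of_norm_le_const
      intro θ _
      rw [Real.norm_of_nonneg Real.posLog_nonneg]
      apply Real.posLog_le_posLog (norm_nonneg _)
      apply hM
      rw [mem_closedBall, dist_zero_right, norm_mul, Complex.norm_exp_ofReal_mul_I, mul_one,
        Complex.norm_real, Real.norm_of_nonneg hr0]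
      exact hrb.le
    have h2 : TT F r ≤ Real.posLog M := by
      unfold TT
      have hpi : 0 < 2 * Real.pi := by positivity
      rw [sub_zero, abs_of_pos hpi] at h1
      have h3 := (le_abs_self _).trans (Real.norm_eq_abs _ ▸ h1)
      rw [inv_mul_le_iff₀ hpi]
      linarith
    have : 0 ≤ (K : ℝ) * Real.log (1 - r)⁻¹ := mul_nonneg (Nat.cast_nonneg _) hlog
    linarith
  · have h1 : r ∈ Ioo l 1 := ⟨lt_of_lt_of_le hlb hrb, hr1⟩
    have h2 := hl2 h1
    simp only [mem_setOf_eq] at h2
    have h3 : TT F r ≤ C * Real.log (1 - r)⁻¹ := by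
      have h4 := (le_abs_self _).trans (Real.norm_eq_abs (TT F r) ▸ h2)
      rwa [Real.norm_of_nonneg hlog] at h4
    have h5 : C * Real.log (1 - r)⁻¹ ≤ K * Real.log (1 - r)⁻¹ :=
      mul_le_mul_of_nonneg_right hK hlog
    have h6 : (0 : ℝ) ≤ Real.posLog M := Real.posLog_nonneg
    linarith

/-- the mean over a rotated circle -/
lemma mean_eq (F : ℂ → ℂ) (q : ℂ) :
    (2 * Real.pi)⁻¹ * (∫ θ in (0:ℝ)..(2 * Real.pi),
      Real.posLog ‖F (q * Complex.exp ((θ : ℂ) * Complex.I))‖) = TT F ‖q‖ := by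
  unfold TT
  congr 1
  set ψ : ℝ → ℝ := fun θ => Real.posLog ‖F ((‖q‖ : ℂ) * Complex.exp ((θ : ℂ) * Complex.I))‖ with hψ
  have h1 : ∀ θ : ℝ, Real.posLog ‖F (q * Complex.exp ((θ : ℂ) * Complex.I))‖ =
      ψ (θ + Complex.arg q) := by
    intro θ
    simp only [hψ]
    congr 3
    conv_lhs => rw [← Complex.norm_mul_exp_arg_mul_I q]
    rw [mul_assoc, ← Complex.exp_add]
    congr 2
    push_cast
    ring
  have hper : Function.Periodic ψ (2 * Real.pi) := by
    intro θ
    simp only [hψ]
    congr 4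
    push_cast
    rw [add_mul, Complex.exp_add, Complex.exp_two_pi_mul_I, mul_one]
  calc (∫ θ in (0:ℝ)..(2 * Real.pi), Real.posLog ‖F (q * Complex.exp ((θ : ℂ) * Complex.I))‖)
      = ∫ θ in (0:ℝ)..(2 * Real.pi), ψ (θ + Complex.arg q) := by
        apply intervalIntegral.integral_congr
        intro θ _
        exact h1 θ
    _ = ∫ θ in (0 + Complex.arg q)..(2 * Real.pi + Complex.arg q), ψ θ := by
        rw [intervalIntegral.integral_comp_add_right]
    _ = ∫ θ in (0:ℝ)..(2 * Real.pi), ψ θ := by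
        have := hper.intervalIntegral_add_eq (0 + Complex.arg q) 0
        rw [zero_add (2 * Real.pi)] at this
        rw [← this]
        congr 1
        ring

/-- the disc inequality -/
lemma disc_ineq (w : ℂ) (hw : ‖w‖ < 1) :
    ‖(1 + w) / 2‖ < 1 ∧ ‖1 - w‖ ^ 2 ≤ 8 * (1 - ‖(1 + w) / 2‖) := by
  have h0 : ‖(1 + w) / 2‖ = ‖1 + w‖ / 2 := by
    rw [norm_div]; norm_num
  have h1 : ‖1 + w‖ ≤ 1 + ‖w‖ := by
    simpa using norm_add_le (1 : ℂ) w
  have hq1 : ‖(1 + w) / 2‖ < 1 := by rw [h0]; linarith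
  refine ⟨hq1, ?_⟩
  have hq0 : 0 ≤ ‖(1 + w) / 2‖ := norm_nonneg _
  have e1 : ‖1 - w‖ ^ 2 = (1 - w.re) ^ 2 + w.im ^ 2 := by
    rw [← Complex.normSq_eq_norm_sq, Complex.normSq_apply]
    simp
    ring
  have e2 : ‖1 + w‖ ^ 2 = (1 + w.re) ^ 2 + w.im ^ 2 := by
    rw [← Complex.normSq_eq_norm_sq, Complex.normSq_apply]
    simp
    ring
  have e3 : ‖w‖ ^ 2 = w.re ^ 2 + w.im ^ 2 := by
    rw [← Complex.normSq_eq_norm_sq, Complex.normSq_apply]
    ring
  have e4 : ‖w‖ ^ 2 < 1 := by
    have := norm_nonneg w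
    nlinarith
  have e5 : ‖(1 + w) / 2‖ ^ 2 = ‖1 + w‖ ^ 2 / 4 := by rw [h0]; ring
  -- ‖1-w‖² = 4 (1 - 2 Re q + |q|²), |q|² ≤ Re q
  have e6 : ‖1 - w‖ ^ 2 ≤ 4 * (1 - ‖(1 + w) / 2‖ ^ 2) := by
    rw [e5, e1, e2]
    nlinarith
  nlinarith

theorem t (hT : S_TRIG) : S_EX := by
  intro F hF hN
  obtain ⟨K, A, hKA⟩ := growth F hF hN
  refine ⟨fun w => (Real.exp (1 + A) : ℂ) * 8 ^ K * ((1 - w)⁻¹) ^ (2 * K), 4 ^ K, ?_, ?_, ?_⟩
  · apply DifferentiableOn.mul (differentiableOn_const _)
    apply DifferentiableOn.pow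
    apply DifferentiableOn.inv
    · exact (differentiableOn_const _).sub differentiableOn_id
    · intro w hw h
      rw [mem_ball, dist_zero_right] at hw
      have : w = 1 := by linear_combination -h
      rw [this] at hw
      simp at hw
  · intro x _
    have : (1 - (1 + x) / 2)⁻¹ = 2 * (1 - x)⁻¹ := by
      rw [show 1 - (1 + x) / 2 = (1 - x) / 2 by ring, inv_div, div_eq_mul_inv]
    simp only [this]
    rw [mul_pow, pow_mul (2 : ℂ) 2 K]
    norm_num
    ring
  · intro w hw
    rw [mem_ball, dist_zero_right] at hw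
    obtain ⟨hq1, hq2⟩ := disc_ineq w hw
    set q : ℂ := (1 + w) / 2 with hq
    have hmem : ∀ x : ℂ, ‖x‖ ≤ 1 → q * x ∈ ball (0 : ℂ) 1 := by
      intro x hx
      rw [mem_ball, dist_zero_right, norm_mul]
      calc ‖q‖ * ‖x‖ ≤ ‖q‖ * 1 := mul_le_mul_of_nonneg_left hx (norm_nonneg _)
        _ < 1 := by linarith
    have hcont : Continuous (fun θ : ℝ => Real.posLog ‖F (q * Complex.exp ((θ : ℂ) * Complex.I))‖) := by
      apply Real.continuous_posLog.comp
      apply Continuous.norm
      have : ContinuousOn F (ball 0 1) := hF.continuousOn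
      apply this.comp_continuous (by fun_prop)
      intro θ
      apply hmem
      rw [Complex.norm_exp_ofReal_mul_I]
    have hper : ∀ θ : ℝ, (fun θ : ℝ => Real.posLog ‖F (q * Complex.exp ((θ : ℂ) * Complex.I))‖)
        (θ + 2 * Real.pi) =
        (fun θ : ℝ => Real.posLog ‖F (q * Complex.exp ((θ : ℂ) * Complex.I))‖) θ := by
      intro θ
      simp only
      congr 4
      push_cast
      rw [add_mul, Complex.exp_add, Complex.exp_two_pi_mul_I, mul_one]
    obtain ⟨V, hV1, hV2⟩ := hT _ hcont hper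
    have hV3 : ∀ z : ℂ, ‖z‖ = 1 → Real.posLog ‖F (q * z)‖ ≤ (V.eval z).re := by
      intro z hz
      have h1 := hV1 (Complex.arg z)
      have h2 : Complex.exp ((Complex.arg z : ℂ) * Complex.I) = z := by
        have := Complex.norm_mul_exp_arg_mul_I z
        rwa [hz, Complex.ofReal_one, one_mul] at this
      simp only [h2] at h1
      exact h1
    have hdV : Differentiable ℂ (fun x => V.eval x) := V.differentiable
    have hbd : Bornology.IsBounded (ball (0 : ℂ) 1) := isBounded_ball
    have hcl : closure (ball (0 : ℂ) 1) = closedBall 0 1 := closure_ball _ one_ne_zero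
    have hfr : frontier (ball (0 : ℂ) 1) = sphere 0 1 := frontier_ball _ one_ne_zero
    refine ⟨fun x => Complex.exp (V.eval x), hdV.cexp.differentiableOn, ?_, ?_⟩
    · intro x hx
      have hxc : x ∈ closure (ball (0 : ℂ) 1) := subset_closure hx
      constructor
      · have h1 : ‖Complex.exp (-V.eval x)‖ ≤ 1 := by
          refine Complex.norm_le_of_forall_mem_frontier_norm_le hbd
            (f := fun x => Complex.exp (-V.eval x)) hdV.neg.cexp.diffContOnCl ?_ hxc
          intro z hz
          rw [hfr, mem_sphere, dist_zero_right] at hz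
          rw [Complex.norm_exp, Complex.neg_re, Real.exp_le_one_iff]
          have := hV3 z hz
          have h0 : (0 : ℝ) ≤ Real.posLog ‖F (q * z)‖ := Real.posLog_nonneg
          linarith
        rw [Complex.norm_exp, Complex.neg_re, Real.exp_le_one_iff] at h1
        show 1 ≤ ‖Complex.exp (V.eval x)‖
        rw [Complex.norm_exp, Real.one_le_exp_iff]
        linarith
      · have h1 : ‖F (q * x) * Complex.exp (-V.eval x)‖ ≤ 1 := by
          have hd : DiffContOnCl ℂ (fun x => F (q * x) * Complex.exp (-V.eval x)) (ball 0 1) := by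
            apply DifferentiableOn.diffContOnCl
            rw [hcl]
            apply DifferentiableOn.mul
            · intro y hy
              rw [mem_closedBall, dist_zero_right] at hy
              have h2 : DifferentiableAt ℂ F (q * y) :=
                hF.differentiableAt (isOpen_ball.mem_nhds (hmem y hy))
              have h3 : DifferentiableAt ℂ (fun x => q * x) y := by fun_prop
              exact (h2.comp y h3).differentiableWithinAt
            · exact hdV.neg.cexp.differentiableOn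
          refine Complex.norm_le_of_forall_mem_frontier_norm_le hbd
            (f := fun x => F (q * x) * Complex.exp (-V.eval x)) hd ?_ hxc
          intro z hz
          rw [hfr, mem_sphere, dist_zero_right] at hz
          rw [norm_mul, Complex.norm_exp, Complex.neg_re]
          have h4 := hV3 z hz
          have h5 : ‖F (q * z)‖ ≤ Real.exp (Real.posLog ‖F (q * z)‖) := by
            refine (Real.le_exp_log _).trans (Real.exp_le_exp.2 ?_)
            rw [Real.posLog]
            exact le_max_right _ _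
          calc ‖F (q * z)‖ * Real.exp (-(V.eval z).re)
              ≤ Real.exp (Real.posLog ‖F (q * z)‖) * Real.exp (-(V.eval z).re) :=
                mul_le_mul_of_nonneg_right h5 (Real.exp_pos _).le
            _ = Real.exp (Real.posLog ‖F (q * z)‖ - (V.eval z).re) := by
                rw [← Real.exp_add]; ring_nf
            _ ≤ 1 := by
                rw [Real.exp_le_one_iff]; linarith
        rw [norm_mul, Complex.norm_exp, Complex.neg_re, Real.exp_neg] at h1
        show ‖F (q * x)‖ ≤ ‖Complex.exp (V.eval x)‖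
        rw [Complex.norm_exp]
        have h6 := Real.exp_pos (V.eval x).re
        rwa [← div_eq_mul_inv, div_le_one h6] at h1
    · show ‖Complex.exp (V.eval 0)‖ ≤ ‖(Real.exp (1 + A) : ℂ) * 8 ^ K * ((1 - w)⁻¹) ^ (2 * K)‖
      rw [mean_eq F q] at hV2
      have h1 := hKA ‖q‖ (norm_nonneg _) hq1
      have hpos : 0 < 1 - ‖q‖ := by linarith
      have hne : 0 < ‖1 - w‖ := by
        rw [norm_pos_iff]
        intro h
        have : w = 1 := by linear_combination -h
        rw [this] at hw
        simp at hw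
      rw [Complex.norm_exp, norm_mul, norm_mul, norm_pow, norm_pow, norm_inv, Complex.norm_real,
        Real.norm_of_nonneg (Real.exp_pos _).le]
      have h2 : (V.eval 0).re ≤ (1 + A) + K * Real.log (1 - ‖q‖)⁻¹ := by linarith
      have h3 : Real.exp (K * Real.log (1 - ‖q‖)⁻¹) = ((1 - ‖q‖)⁻¹) ^ K := by
        rw [Real.exp_nat_mul, Real.exp_log (inv_pos.2 hpos)]
      calc Real.exp (V.eval 0).re ≤ Real.exp ((1 + A) + K * Real.log (1 - ‖q‖)⁻¹) :=
            Real.exp_le_exp.2 h2
        _ = Real.exp (1 + A) * ((1 - ‖q‖)⁻¹) ^ K := by rw [Real.exp_add, h3]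
        _ ≤ Real.exp (1 + A) * (8 * (‖1 - w‖⁻¹) ^ 2) ^ K := by
            apply mul_le_mul_of_nonneg_left _ (Real.exp_pos _).le
            apply pow_le_pow_left₀ (inv_pos.2 hpos).le
            rw [inv_pow, inv_le_iff_one_le_mul₀ hpos]
            rw [show 8 * (‖1 - w‖ ^ 2)⁻¹ * (1 - ‖q‖) = (8 * (1 - ‖q‖)) / ‖1 - w‖ ^ 2 by
              field_simp]
            rw [one_le_div (by positivity)]
            exact hq2
        _ = Real.exp (1 + A) * ‖(8 : ℂ)‖ ^ K * ‖1 - w‖⁻¹ ^ (2 * K) := by
            rw [mul_pow, pow_mul]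
            norm_num
            ring

end Pool.Agent.Y359.Adm.Ex
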